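import Pool.Agent.Y34.EL.Stm

/-!
# Project EL, job WLK: from chains on spheres to walks in the group
-/

set_option autoImplicit false

universe u v

open Metric Set Filter Topology
open Pool.Agent.TH60.FP Pool.Agent.Y34.HB Pool.Agent.Y34.EL

namespace Pool.Agent.Y914.EL

lemma near {X : Type u} [MetricSpace X] {G : Type v} [Group G] [MulAction G X] (hG : Geo X G)
    (o : X) : ∃ D0 : ℝ, 0 ≤ D0 ∧ ∀ x : X, ∃ γ : G, dist (γ • o) x ≤ D0 := by
  haveI := hG.isom
  obtain ⟨K, hK, hKx⟩ := hG.cc
  obtain ⟨R, hR⟩ := hK.isBounded.subset_closedBall o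
  refine ⟨|R|, abs_nonneg R, fun x => ?_⟩
  obtain ⟨g, hg⟩ := hKx x
  refine ⟨g⁻¹, ?_⟩
  have h1 : dist (g • x) o ≤ R := hR hg
  rw [← dist_smul g, smul_inv_smul, dist_comm]
  exact h1.trans (le_abs_self R)

lemma ray_of {X : Type u} [MetricSpace X] (hGC : GC X) {o p : X} (h : o ≠ p) :
    ∃ c : ℝ → X, Ray o c ∧ ∀ r : ℝ, dist p (c r) = |dist o p - r| := by
  obtain ⟨c, hc, h0, h1⟩ := hGC o p h
  refine ⟨c, ⟨h0, fun s t _ _ => ?_⟩, fun r => ?_⟩
  · rw [hc.dist_eq, Real.dist_eq]
  · conv_lhs => rw [← h1]
    rw [hc.dist_eq, Real.dist_eq]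

theorem t_WLK : S_WLK.{u, v} := by
  intro X _ G _ _ hG hGC o C hL D hD
  haveI := hG.isom
  obtain ⟨D0, hD0, hnear⟩ := near hG o
  choose γ hγ using hnear
  have hds : ∀ a b : G, dist o ((a⁻¹ * b) • o) = dist (a • o) (b • o) := by
    intro a b
    rw [← dist_smul a o ((a⁻¹ * b) • o), smul_smul, mul_inv_cancel_left]
  refine ⟨2 * D + 2 * D0 + 4, |C| + 3, ?_⟩
  intro r g h hr hg1 hg2 hh1 hh2
  have hC0 : 0 ≤ |C| := abs_nonneg C
  rcases le_or_gt r 1 with hr1 | hr1
  · refine ⟨1, fun i => if i = 0 then g else h, ?_, ?_, ?_, ?_, ?_⟩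
    · push_cast
      nlinarith
    · simp
    · simp
    · intro i _
      by_cases hi : i = 0
      · simp only [hi, if_true]
        constructor <;> linarith
      · simp only [hi, if_false]
        constructor <;> linarith
    · intro i hi
      have hi0 : i = 0 := by omega
      subst hi0
      simp only [if_true, zero_add, one_ne_zero, if_false]
      rw [hds]
      have h1 := dist_triangle (g • o) o (h • o)
      rw [dist_comm (g • o) o] at h1
      linarith
  · have hgo : o ≠ g • o := by
      intro he
      rw [← he, dist_self] at hg1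
      linarith
    have hho : o ≠ h • o := by
      intro he
      rw [← he, dist_self] at hh1
      linarith
    obtain ⟨c, hc, hc1⟩ := ray_of hGC hgo
    obtain ⟨c', hc', hc1'⟩ := ray_of hGC hho
    have hgc : dist (g • o) (c r) ≤ D := by
      rw [hc1, abs_of_nonneg (by linarith)]
      linarith
    have hhc : dist (h • o) (c' r) ≤ D := by
      rw [hc1', abs_of_nonneg (by linarith)]
      linarith
    obtain ⟨n, y, hn, hy0, hyn, hyr, hys⟩ := hL c c' hc hc' r hr
    refine ⟨n + 2, fun i => if i = 0 then g else if i ≤ n + 1 then γ (y (i - 1)) else h,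
      ?_, ?_, ?_, ?_, ?_⟩
    · push_cast
      have h1 : C * (r + 1) ≤ |C| * (r + 1) :=
        mul_le_mul_of_nonneg_right (le_abs_self C) (by linarith)
      nlinarith
    · simp
    · have h1 : ¬ (n + 2 ≤ n + 1) := by omega
      simp
    · intro i hi
      by_cases hi0 : i = 0
      · simp only [hi0, if_true]
        constructor <;> linarith
      · by_cases hi1 : i ≤ n + 1
        · simp only [hi0, if_false, hi1, if_true]
          have h1 := hγ (y (i - 1))
          have h2 := hyr (i - 1) (by omega)
          have h3 := dist_triangle o (y (i - 1)) (γ (y (i - 1)) • o)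
          have h4 := dist_triangle o (γ (y (i - 1)) • o) (y (i - 1))
          rw [dist_comm (y (i - 1))] at h3
          constructor <;> linarith
        · simp only [hi0, if_false, hi1]
          constructor <;> linarith
    · intro i hi
      rw [hds]
      by_cases hi0 : i = 0
      · subst hi0
        simp only [if_true, zero_add, one_ne_zero, if_false, Nat.sub_self,
          show (1 : ℕ) ≤ n + 1 by omega]
        have h1 := hγ (y 0)
        have h2 := dist_triangle (g • o) (c r) (γ (y 0) • o)
        rw [hy0] at h1 h2 ⊢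
        rw [dist_comm (c r)] at h2
        linarith
      · by_cases hi1 : i = n + 1
        · subst hi1
          simp only [hi0, if_false, le_refl, if_true, show ¬ (n + 1 + 1 ≤ n + 1) by omega,
            show n + 1 + 1 ≠ 0 by omega, Nat.add_sub_cancel]
          have h1 := hγ (y n)
          have h2 := dist_triangle (γ (y n) • o) (c' r) (h • o)
          rw [hyn] at h1 h2 ⊢
          rw [dist_comm (c' r)] at h2
          linarith
        · have h5 : i ≤ n + 1 := by omega
          have h6 : i + 1 ≤ n + 1 := by omega
          simp only [hi0, if_false, h5, if_true, h6, show i + 1 ≠ 0 by omega, Nat.add_sub_cancel]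
          have h1 := hγ (y (i - 1))
          have h2 := hγ (y i)
          have h3 := hys (i - 1) (by omega)
          rw [show i - 1 + 1 = i by omega] at h3
          have h4 := dist_triangle (γ (y (i - 1)) • o) (y (i - 1)) (γ (y i) • o)
          have h7 := dist_triangle (y (i - 1)) (y i) (γ (y i) • o)
          rw [dist_comm (y i)] at h7
          linarith

end Pool.Agent.Y914.EL
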